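import Mathlib
import Pool.Agent.Helper696_MA.E
import Pool.Agent.Helper696_MA.P

/-!
# The parabolic complex Monge-Ampère flow does not start from data with positive Lelong numbers

The definitions are in `Pool/Agent/Helper696_MA/Defs.lean`: `Cn n = ℂⁿ`, `cHess f z` is the complex Hessian of `f` at
`z`, `IsPSH U u` says that `u : U → [-∞,∞)` is plurisubharmonic on the open set `U`, `IsSPCDomain Ω` that `Ω` is a
bounded strictly pseudoconvex domain with smooth boundary, `IsData Ω U T u₀ φ` lists the assumptions on the data of the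
problem and `IsSolution Ω T u₀ φ u` its conditions 1-4; `logDist a z = log |z - a|` (`-∞` at `a`).

Proof. For `0 < s < t < T` the function `u(z,s) + (t-s)(|z|²-R²) - 4n√(t-s)` is a subsolution, so `u` is almost
non-decreasing in `t`, uniformly in `z` (`almost_mono`), and by a Dini argument `u(·,s) ≤ h` on `closure Ω` for small `s`
whenever `h` is continuous and `u₀ < h` there (`unif_small`). With `h = (c/2) log(|z-a|²+ε²) + C + ε` and the explicit
supersolution `((c-2nt)/2) log(|z-a|²+ε²) + Bt + C + ε` (`upper_bound`) one gets, at a fixed small time `t`,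
`u(a,t) ≤ (c/2) log ε + const` for all `ε ∈ (0,1]`, which is absurd.
-/

set_option autoImplicit false

open Set Filter Topology
open scoped ContDiff

namespace Pool.Agent.Results.MP_8f0dee_an.NoFlow

open Pool.Agent.Helper696_MA

/-- (1) Let `Ω ⊆ ℂⁿ` be bounded and open, `T > 0`, `u₀` plurisubharmonic near `closure Ω` and `φ` smooth boundary data with
`φ = u₀` on `∂Ω`. If `u₀` has a positive Lelong number at some point `a ∈ Ω`, that is `u₀(z) ≤ c log |z - a|` near `a` for
some `c > 0`, then the flow has no solution (in the sense of the conditions 1-4 of the problem).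
(2) So in every dimension `n ≥ 1` and for every `T > 0` the answer to the question is negative: the unit ball is a bounded
strictly pseudoconvex domain with smooth boundary, `u₀ = log |z|` and `φ = 0` satisfy all assumptions, and there is no
solution. -/
theorem result :
    (∀ (n : ℕ) (Ω U : Set (Cn n)) (T : ℝ) (u₀ : Cn n → EReal) (φ : Cn n × ℝ → ℝ),
      IsOpen Ω → Bornology.IsBounded Ω → IsData Ω U T u₀ φ →
      (∃ a ∈ Ω, ∃ c : ℝ, 0 < c ∧ u₀ a = ⊥ ∧
        ∀ᶠ z in 𝓝[≠] a, u₀ z ≤ ((c * Real.log ‖z - a‖ : ℝ) : EReal)) →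
      ¬ ∃ u : Cn n × ℝ → ℝ, IsSolution Ω T u₀ φ u) ∧
    (∀ n : ℕ, 1 ≤ n → ∀ T : ℝ, 0 < T →
      IsSPCDomain (Metric.ball (0 : Cn n) 1) ∧
      IsData (Metric.ball (0 : Cn n) 1) univ T (logDist 0) (fun _ => 0) ∧
      ¬ ∃ u : Cn n × ℝ → ℝ,
        IsSolution (Metric.ball (0 : Cn n) 1) T (logDist 0) (fun _ => 0) u) := by
  have h1 : ∀ (n : ℕ) (Ω U : Set (Cn n)) (T : ℝ) (u₀ : Cn n → EReal) (φ : Cn n × ℝ → ℝ),
      IsOpen Ω → Bornology.IsBounded Ω → IsData Ω U T u₀ φ →
      (∃ a ∈ Ω, ∃ c : ℝ, 0 < c ∧ u₀ a = ⊥ ∧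
        ∀ᶠ z in 𝓝[≠] a, u₀ z ≤ ((c * Real.log ‖z - a‖ : ℝ) : EReal)) →
      ¬ ∃ u : Cn n × ℝ → ℝ, IsSolution Ω T u₀ φ u := by
    intro n Ω U T u₀ φ hΩ hb hd ⟨a, ha, c, hc, ha0, hL⟩
    exact no_solution hΩ hb hd ha hc ha0 hL
  refine ⟨h1, fun n _ T hT => ?_⟩
  have hd : IsData (Metric.ball (0 : Cn n) 1) univ T (logDist 0) (fun _ => 0) := by
    refine ⟨hT, subset_univ _, isPSH_logDist, contDiffOn_const, ?_⟩
    intro z hz t _
    have hz1 : ‖z‖ = 1 := by
      have := Metric.frontier_ball_subset_sphere hz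
      rwa [mem_sphere_zero_iff_norm] at this
    have hz0 : z ≠ 0 := by
      rintro rfl
      rw [norm_zero] at hz1
      exact zero_ne_one hz1
    rw [P_logDist_ne hz0, hz1, Real.log_one]
  refine ⟨isSPC_ball, hd, h1 n _ _ T _ _ Metric.isOpen_ball Metric.isBounded_ball hd
    ⟨0, Metric.mem_ball_self one_pos, 1, one_pos, P_logDist_zero, ?_⟩⟩
  filter_upwards [self_mem_nhdsWithin] with z hz
  rw [P_logDist_ne hz, sub_zero, one_mul]

end Pool.Agent.Results.MP_8f0dee_an.NoFlow
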